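import Mathlib
import Pool.Agent.V11102.Rep.Main

/-!
If `A ⊆ ℕ` and every large integer has at least `k` ordered representations as a sum of two
elements of `A`, then infinitely many integers have more than `l` of them, for every `l` with
`(l - k)² < 4 k`.  For `k = 1000` this gives integers with at least `1010` (even `1064`)
representations.

The proof: let `f(z) = ∑ z ^ a` over `a ∈ A`, so `f² = c / (1 - z) + E(z)` with
`E(z) = ∑ (r(n) - c) z ^ n`.  The mean of `|f|²` on the circle of radius `ρ` is `f(ρ²)`, about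
`√(k / (1 - ρ²))`; the mean of `c / |1 - z|` is negligible, and the mean of `|E|` is at most
`(l - k) / 2 · (1 - ρ²) ^ (-1/2)` by Parseval's formula, for `c = (k + l) / 2`.
-/

set_option autoImplicit false

namespace Pool.Agent.Results.MP_eaae5b_nt.VarianceAtLeastMean

open Filter

/-- The number of ordered pairs `(a₁, a₂)` of elements of `A` with `a₁ + a₂ = n`. -/
noncomputable def rep (A : Set ℕ) (n : ℕ) : ℕ :=
  {p : ℕ × ℕ | p.1 ∈ A ∧ p.2 ∈ A ∧ p.1 + p.2 = n}.ncard

/-- Part one is the question. Part two: if all large integers have at least `k` representations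
and `(l - k)² < 4 k`, then infinitely many integers have more than `l` representations. -/
theorem result :
    (∀ A : Set ℕ, (∃ n₀, ∀ n ≥ n₀, 1 ≤ rep A n) → (∃ n₀, ∀ n ≥ n₀, 1000 ≤ rep A n) →
      ∃ n, 1010 ≤ rep A n) ∧
    (∀ (A : Set ℕ) (k l : ℕ), ((l : ℝ) - k) ^ 2 < 4 * k → (∃ n₀, ∀ n ≥ n₀, k ≤ rep A n) →
      ∀ N, ∃ n ≥ N, l < rep A n) := by
  have h2 : ∀ (A : Set ℕ) (k l : ℕ), ((l : ℝ) - k) ^ 2 < 4 * k →
      (∃ n₀, ∀ n ≥ n₀, k ≤ rep A n) → ∀ N, ∃ n ≥ N, l < rep A n := by
    intro A k l hkl h N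
    by_contra hcon
    push Not at hcon
    exact V11102.Rep.main A k l hkl (eventually_atTop.2 h) (eventually_atTop.2 ⟨N, hcon⟩)
  refine ⟨fun A _ h => ?_, h2⟩
  obtain ⟨n, _, hn⟩ := h2 A 1000 1009 (by norm_num) h 0
  exact ⟨n, hn⟩

end Pool.Agent.Results.MP_eaae5b_nt.VarianceAtLeastMean
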